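import Pool.Agent.COSB.StmtsB

set_option autoImplicit false

/-!
# Squad COSB, row PRB: an odd number of pairs of canonical matrices
-/

namespace Pool.Agent.COSB.H92

open Pool.Agent.PAR Pool.Agent.COS

/-- PRB -/
theorem prb (h0 : GrpStmt) (h1 : MngStmt) (h2 : LteStmt) (h3 : CanStmt) : PrbStmt := by
  intro F _ _ _ n H _ φ W hq hW hh
  obtain ⟨U, hU, hcard⟩ := h1 F n
  let _ : MulAction H (Matrix.GeneralLinearGroup (Fin n) F ⧸ U) := MulAction.compHom _ φ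
  have hX : Odd (Nat.card (Matrix.GeneralLinearGroup (Fin n) F ⧸ U)) := by
    apply h2 (Fintype.card F) n _ hq Fintype.one_lt_card
    have e := Matrix.card_GL_field (𝔽 := F) n
    rw [← e, ← hcard, mul_comm]
    exact Subgroup.card_eq_card_quotient_mul_card_subgroup U
  have h := h0 H (Matrix.GeneralLinearGroup (Fin n) F ⧸ U) W hW hh hX
  have key : ∀ (w : H) (a b : Matrix.GeneralLinearGroup (Fin n) F),
      w • (a : Matrix.GeneralLinearGroup (Fin n) F ⧸ U) = (b : Matrix.GeneralLinearGroup (Fin n) F ⧸ U) ↔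
        IsMon (b⁻¹ * φ w * a).1 := by
    intro w a b
    change ((φ w * a : Matrix.GeneralLinearGroup (Fin n) F) :
      Matrix.GeneralLinearGroup (Fin n) F ⧸ U) = (b : Matrix.GeneralLinearGroup (Fin n) F ⧸ U) ↔ _
    rw [eq_comm, QuotientGroup.eq, hU, mul_assoc]
  have he : ∀ g : Matrix.GeneralLinearGroup (Fin n) F,
      ∃ a : Matrix.GeneralLinearGroup (Fin n) F, Cnn a.1 ∧
        (a : Matrix.GeneralLinearGroup (Fin n) F ⧸ U) = (g : Matrix.GeneralLinearGroup (Fin n) F ⧸ U) := by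
    intro g
    obtain ⟨a, ⟨ha, u, hu, hg⟩, -⟩ := h3 F n g
    refine ⟨a, ha, ?_⟩
    rw [QuotientGroup.eq, hU, hg, inv_mul_cancel_left]
    exact hu
  have hu : ∀ a b : Matrix.GeneralLinearGroup (Fin n) F, Cnn a.1 → Cnn b.1 →
      (a : Matrix.GeneralLinearGroup (Fin n) F ⧸ U) = (b : Matrix.GeneralLinearGroup (Fin n) F ⧸ U) →
      a = b := by
    intro a b ha hb hab
    obtain ⟨c, -, hc⟩ := h3 F n b
    have e1 : a = c := by
      apply hc
      refine ⟨ha, a⁻¹ * b, ?_, (mul_inv_cancel_left a b).symm⟩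
      rwa [QuotientGroup.eq, hU] at hab
    have e2 : b = c := by
      apply hc
      refine ⟨hb, 1, ?_, (mul_one b).symm⟩
      rw [← hU]
      exact U.one_mem
    rw [e1, e2]
  rw [← show Set.ncard _ = Set.ncard _ from Set.ncard_congr
    (fun (s : Matrix.GeneralLinearGroup (Fin n) F × Matrix.GeneralLinearGroup (Fin n) F) _ =>
      ((s.1 : Matrix.GeneralLinearGroup (Fin n) F ⧸ U),
        (s.2 : Matrix.GeneralLinearGroup (Fin n) F ⧸ U)))
    (s := {s : Matrix.GeneralLinearGroup (Fin n) F × Matrix.GeneralLinearGroup (Fin n) F |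
      Cnn s.1.1 ∧ Cnn s.2.1 ∧ ∃ w ∈ W, IsMon (s.2⁻¹ * φ w * s.1).1}) ?_ ?_ ?_] at h
  · exact h
  · rintro ⟨a, b⟩ ⟨-, -, w, hw, h4⟩
    exact ⟨w, hw, (key w a b).2 h4⟩
  · rintro ⟨a, b⟩ ⟨a', b'⟩ ⟨ha, hb, -⟩ ⟨ha', hb', -⟩ h5
    rw [Prod.mk.injEq] at h5
    rw [Prod.mk.injEq]
    exact ⟨hu a a' ha ha' h5.1, hu b b' hb hb' h5.2⟩
  · rintro ⟨x, y⟩ ⟨w, hw, h6⟩
    obtain ⟨g, rfl⟩ := QuotientGroup.mk_surjective x
    obtain ⟨g', rfl⟩ := QuotientGroup.mk_surjective y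
    obtain ⟨a, ha, hga⟩ := he g
    obtain ⟨b, hb, hgb⟩ := he g'
    rw [← hga, ← hgb]
    rw [← hga, ← hgb] at h6
    exact ⟨(a, b), ⟨ha, hb, w, hw, (key w a b).1 h6⟩, rfl⟩

end Pool.Agent.COSB.H92
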