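import Pool.Agent.COSB.StmtsA

set_option autoImplicit false

/-!
# Squad COSB, row DGT: lowest digits and divisibility
-/

namespace Pool.Agent.COSB.H92

/-- DGT -/
theorem dgt : DgtStmt := by
  intro x y m
  have h1 : (∀ b < m, x.testBit b = y.testBit b) ↔ x % 2 ^ m = y % 2 ^ m := by
    constructor
    · intro h
      apply Nat.eq_of_testBit_eq
      intro i
      rw [Nat.testBit_mod_two_pow, Nat.testBit_mod_two_pow]
      by_cases hi : i < m
      · rw [h i hi]
      · simp [hi]
    · intro h b hb
      have e := congrArg (fun z => Nat.testBit z b) h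
      simpa [Nat.testBit_mod_two_pow, hb] using e
  rw [h1]
  have h2 : (x % 2 ^ m = y % 2 ^ m) ↔ (y ≡ x [MOD 2 ^ m]) := by
    unfold Nat.ModEq
    exact eq_comm
  rw [h2, Nat.modEq_iff_dvd]
  push_cast
  rfl

end Pool.Agent.COSB.H92
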